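import Mathlib
import Pool.Agent.Work.MP_ce2d68_st.Interface

/-!
# Block DIG: one digit in base `pr Qs`
-/

set_option autoImplicit false

open Polynomial Filter Topology
open scoped ComplexConjugate

namespace Pool.Agent.Work.MP_ce2d68_st.helper23

lemma eval_map_conj (p : ℂ[X]) (z : ℂ) :
    (p.map (starRingEnd ℂ)).eval z = conj (p.eval (conj z)) := by
  have h := Polynomial.eval₂_at_apply (p := p) (starRingEnd ℂ) (conj z)
  rw [← Polynomial.eval_map] at h
  simpa using h

lemma ev_conj (P : ℤ[X]) (z : ℂ) : ev P (conj z) = conj (ev P z) := by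
  have h := eval_map_conj (cp P) (conj z)
  have h2 : (cp P).map (starRingEnd ℂ) = cp P := by
    rw [cp, Polynomial.map_map]
    congr 1
    exact Subsingleton.elim _ _
  rw [h2] at h
  simpa [ev] using h

lemma rv_conj (f : ℝ[X]) (z : ℂ) : rv f (conj z) = conj (rv f z) := by
  have h := eval_map_conj (f.map (algebraMap ℝ ℂ)) (conj z)
  have h2 : (f.map (algebraMap ℝ ℂ)).map (starRingEnd ℂ) = f.map (algebraMap ℝ ℂ) := by
    rw [Polynomial.map_map]
    congr 1
    ext x
    simp
  rw [h2] at h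
  simpa [rv] using h

lemma map_int_real (u : ℤ[X]) :
    (u.map (Int.castRingHom ℝ)).map (algebraMap ℝ ℂ) = cp u := by
  rw [cp, Polynomial.map_map]
  congr 1

/-- the real part of a complex polynomial -/
noncomputable def reP (D : ℕ) (p : ℂ[X]) : ℝ[X] :=
  ∑ i ∈ Finset.range D, monomial i (p.coeff i).re

lemma reP_coeff (D : ℕ) (p : ℂ[X]) (hp : p.degree < (D : WithBot ℕ)) (i : ℕ) :
    (reP D p).coeff i = (p.coeff i).re := by
  rw [reP, Polynomial.finsetSum_coeff]
  by_cases hi : i < D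
  · rw [Finset.sum_eq_single i]
    · simp
    · intro j _ hj
      rw [Polynomial.coeff_monomial, if_neg hj]
    · intro h
      exact absurd (Finset.mem_range.2 hi) h
  · have h0 : p.coeff i = 0 := by
      apply Polynomial.coeff_eq_zero_of_degree_lt
      exact lt_of_lt_of_le hp (by exact_mod_cast not_lt.1 hi)
    rw [h0, Finset.sum_eq_zero]
    · simp
    · intro j hj
      rw [Polynomial.coeff_monomial, if_neg]
      have := Finset.mem_range.1 hj
      omega

lemma reP_degree (D : ℕ) (p : ℂ[X]) (hp : p.degree < (D : WithBot ℕ)) :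
    (reP D p).degree < (D : WithBot ℕ) := by
  rw [Polynomial.degree_lt_iff_coeff_zero]
  intro m hm
  rw [reP_coeff D p hp, Polynomial.coeff_eq_zero_of_degree_lt]
  · simp
  · exact lt_of_lt_of_le hp (by exact_mod_cast hm)

lemma reP_eval (D : ℕ) (p : ℂ[X]) (hp : p.degree < (D : WithBot ℕ)) (z : ℂ) :
    rv (reP D p) z = 1 / 2 * (p.eval z + conj (p.eval (conj z))) := by
  have h1 : (reP D p).map (algebraMap ℝ ℂ) = C (1 / 2) * (p + p.map (starRingEnd ℂ)) := by
    ext i
    rw [Polynomial.coeff_map, reP_coeff D p hp, Polynomial.coeff_C_mul, Polynomial.coeff_add,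
      Polynomial.coeff_map, Complex.coe_algebraMap, Complex.re_eq_add_conj]
    ring
  rw [rv, h1, Polynomial.eval_mul, Polynomial.eval_C, Polynomial.eval_add, eval_map_conj]

/-- bound of finitely many polynomials on a compact set -/
lemma bound_on (K : Set ℂ) (hK : IsCompact K) (R : Finset ℂ) (L : ℂ → ℂ[X]) :
    ∃ c : ℝ, 0 < c ∧ ∀ a ∈ R, ∀ z ∈ K, ‖(L a).eval z‖ ≤ c := by
  classical
  have h : ∀ a, ∃ c : ℝ, 0 ≤ c ∧ ∀ z ∈ K, ‖(L a).eval z‖ ≤ c := by
    intro a
    obtain ⟨c, hc⟩ := hK.exists_bound_of_continuousOn (f := fun z => (L a).eval z)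
      (L a).continuous.continuousOn
    exact ⟨|c|, abs_nonneg _, fun z hz => (hc z hz).trans (le_abs_self c)⟩
  choose c hc0 hc using h
  refine ⟨∑ a ∈ R, c a + 1, by positivity [Finset.sum_nonneg (fun a (_ : a ∈ R) => hc0 a)], ?_⟩
  intro a ha z hz
  have := Finset.single_le_sum (f := c) (fun a _ => hc0 a) ha
  linarith [hc a z hz]

lemma four_eq : (4 : ℝ[X]) = C 4 := (map_ofNat C 4).symm

/-- average of `S` over the conjugates -/
noncomputable def av (S : ℂ → ℝ) (Q : ℤ[X]) : ℝ := (∑ a ∈ rts Q, S a) / Q.natDegree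

/-- the weights -/
noncomputable def wt (Qs : Finset ℤ[X]) (S : ℂ → ℝ) (a : ℂ) : ℝ :=
  ∑ Q ∈ Qs, if a ∈ rts Q then av S Q - S a else 0

lemma wt_eq (Qs : Finset ℤ[X]) (S : ℂ → ℝ)
    (hdis : ∀ P ∈ Qs, ∀ Q ∈ Qs, P ≠ Q → Disjoint (rts P) (rts Q)) {Q : ℤ[X]} (hQ : Q ∈ Qs)
    {a : ℂ} (ha : a ∈ rts Q) : wt Qs S a = av S Q - S a := by
  rw [wt, Finset.sum_eq_single Q]
  · rw [if_pos ha]
  · intro P hP hne
    rw [if_neg]
    intro haP
    exact Finset.disjoint_left.1 (hdis P hP Q hQ hne) haP ha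
  · intro h; exact absurd hQ h

lemma wt_sym (Qs : Finset ℤ[X]) (S : ℂ → ℝ) (hS : Sym S)
    (hconj : ∀ Q ∈ Qs, ∀ a ∈ rts Q, conj a ∈ rts Q) : Sym (wt Qs S) := by
  intro a
  rw [wt, wt]
  apply Finset.sum_congr rfl
  intro Q hQ
  have h : conj a ∈ rts Q ↔ a ∈ rts Q := by
    constructor
    · intro h
      have := hconj Q hQ _ h
      simpa using this
    · exact hconj Q hQ a
  simp only [h, hS a]

theorem stmt_DIG (hBAS : Stmt_BAS) (hBASF : Stmt_BASF) (hCOVF : Stmt_COVF) : Stmt_DIG := by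
  classical
  intro K hK hKc Qs hFam hne
  obtain ⟨hmon, hdeg, hprod, hcard, hconj, hdis⟩ := hBASF Qs hFam
  obtain ⟨c₁, hc₁, hcov⟩ := hCOVF Qs hFam
  set R : Finset ℂ := rs Qs with hR
  set L : ℂ → ℂ[X] := fun a => Lagrange.basis R id a with hL
  obtain ⟨c₂, hc₂, hLb⟩ := bound_on K hK R L
  have hinj : Set.InjOn (id : ℂ → ℂ) (R : Set ℂ) := Set.injOn_id _
  obtain ⟨Q₀, hQ₀⟩ := hne
  have hdg : 0 < dg Qs := by
    have h1 := (hBAS Q₀ (hFam Q₀ hQ₀).1 (hFam Q₀ hQ₀).2).1
    exact lt_of_lt_of_le h1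
      (Finset.single_le_sum (f := fun P : ℤ[X] => P.natDegree) (fun _ _ => Nat.zero_le _) hQ₀)
  have hRcard : R.card = dg Qs := hcard
  have hRne : R.Nonempty := by
    rw [← Finset.card_pos, hRcard]; exact hdg
  refine ⟨c₁ * c₂ * dg Qs, by positivity, ?_⟩
  intro W T D S g hT hT0 hS hg f hf
  obtain ⟨a₀, ha₀⟩ := hRne
  have hdgD : dg Qs ≤ D := le_trans (Nat.le_add_left _ _) (hg a₀ ha₀).1
  have hBas : ∀ Q ∈ Qs, 0 < Q.natDegree ∧ (rts Q).card = Q.natDegree ∧
      ∀ a ∈ rts Q, conj a ∈ rts Q := fun Q hQ =>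
    ⟨(hBAS Q (hFam Q hQ).1 (hFam Q hQ).2).1, (hBAS Q (hFam Q hQ).1 (hFam Q hQ).2).2.2.1,
      (hBAS Q (hFam Q hQ).1 (hFam Q hQ).2).2.2.2.1⟩
  have hsym : Sym (wt Qs S) := wt_sym Qs S hS (fun Q hQ => (hBas Q hQ).2.2)
  have hsum0 : ∀ P ∈ Qs, ∑ a ∈ rts P, wt Qs S a = 0 := by
    intro P hP
    rw [Finset.sum_congr rfl (fun a ha => wt_eq Qs S hdis hP ha), Finset.sum_sub_distrib,
      Finset.sum_const, (hBas P hP).2.1, av, nsmul_eq_mul]
    have : (P.natDegree : ℝ) ≠ 0 := by exact_mod_cast (hBas P hP).1.ne'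
    field_simp
    ring
  obtain ⟨u, hu, htau⟩ := hcov (wt Qs S) hsym hsum0 f
  set tau : ℂ → ℂ := fun a => rv f a - 4 * ev u a with htaudef
  have htc : ∀ a, tau (conj a) = conj (tau a) := by
    intro a
    simp only [htaudef, rv_conj, ev_conj, map_sub, map_mul, Complex.conj_ofNat]
  set hC : ℂ[X] := ∑ a ∈ R, C (tau a) * (L a * g a) with hhC
  have hLdeg : ∀ a ∈ R, (L a).natDegree = dg Qs - 1 := by
    intro a ha
    rw [hL]
    have := Lagrange.degree_basis hinj ha
    rw [← hRcard]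
    exact Polynomial.natDegree_eq_of_degree_eq_some this
  have hCdeg : hC.degree < (D : WithBot ℕ) := by
    rw [hhC, ← Polynomial.mem_degreeLT]
    apply Submodule.sum_mem
    intro a ha
    rw [Polynomial.mem_degreeLT]
    refine lt_of_le_of_lt Polynomial.degree_le_natDegree ?_
    have h1 : (C (tau a) * (L a * g a)).natDegree ≤ (L a).natDegree + (g a).natDegree :=
      (Polynomial.natDegree_C_mul_le _ _).trans Polynomial.natDegree_mul_le
    have h2 := hLdeg a ha
    have h3 := (hg a ha).1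
    have h4 : (C (tau a) * (L a * g a)).natDegree < D := by omega
    exact_mod_cast h4
  set h : ℝ[X] := reP D hC with hh
  have hhdeg : h.degree < (D : WithBot ℕ) := reP_degree D hC hCdeg
  have hLe : ∀ a ∈ R, ∀ b ∈ R, (L a).eval b = if a = b then 1 else 0 := by
    intro a ha b hb
    by_cases hab : a = b
    · subst hab
      rw [if_pos rfl]
      exact Lagrange.eval_basis_self hinj ha
    · rw [if_neg hab]
      exact Lagrange.eval_basis_of_ne (v := id) hab hb
  have hCe : ∀ b ∈ R, hC.eval b = tau b := by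
    intro b hb
    rw [hhC, Polynomial.eval_finsetSum, Finset.sum_eq_single b]
    · rw [Polynomial.eval_mul, Polynomial.eval_mul, Polynomial.eval_C, hLe b hb b hb,
        (hg b hb).2.1]
      simp
    · intro a ha hab
      rw [Polynomial.eval_mul, Polynomial.eval_mul, hLe a ha b hb, if_neg hab]
      simp
    · intro hb'; exact absurd hb hb'
  have hhe : ∀ b ∈ R, rv h b = tau b := by
    intro b hb
    rw [hh, reP_eval D hC hCdeg, hCe b hb, hCe (conj b) (hconj b hb), htc, Complex.conj_conj]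
    ring
  -- divisibility
  set uR : ℝ[X] := u.map (Int.castRingHom ℝ) with huR
  set QR : ℝ[X] := (pr Qs).map (Int.castRingHom ℝ) with hQR
  have hQRmon : QR.Monic := hmon.map _
  have hdvd : QR ∣ f - 4 * uR - h := by
    rw [← Polynomial.map_dvd_map (algebraMap ℝ ℂ) (algebraMap ℝ ℂ).injective hQRmon, hQR,
      map_int_real, hprod]
    apply Finset.prod_dvd_of_coprime
    · intro a _ b _ hab
      exact Polynomial.pairwise_coprime_X_sub_C (s := id) (fun _ _ h => h) hab
    · intro b hb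
      rw [Polynomial.dvd_iff_isRoot, Polynomial.IsRoot.def]
      have e1 : (((f - 4 * uR - h).map (algebraMap ℝ ℂ))).eval b
          = rv f b - 4 * ev u b - rv h b := by
        have e0 : (4 * uR : ℝ[X]).map (algebraMap ℝ ℂ) = C 4 * cp u := by
          have h2 : (4 * uR : ℝ[X]) = C 4 * uR := by rw [four_eq]
          rw [h2, Polynomial.map_mul, huR, map_int_real, Polynomial.map_C]
          simp
        rw [Polynomial.map_sub, Polynomial.map_sub, e0]
        simp only [rv, ev, Polynomial.eval_sub, Polynomial.eval_mul, Polynomial.eval_C]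
      rw [e1, hhe b hb]
      simp [htaudef]
  obtain ⟨f₂, hf₂⟩ := hdvd
  have hQRdeg : QR.natDegree = dg Qs := by
    rw [hQR, hmon.natDegree_map, hdeg]
  refine ⟨u, h, f₂, hu, hhdeg, ?_, ?_, ?_⟩
  · -- degree of the quotient
    have htot : (f - 4 * uR - h).degree < (D : WithBot ℕ) := by
      have h1 : (4 * uR : ℝ[X]).degree < (D : WithBot ℕ) := by
        rw [four_eq, Polynomial.degree_C_mul (by norm_num)]
        refine lt_of_le_of_lt (Polynomial.degree_map_le) ?_
        exact lt_of_lt_of_le hu (by exact_mod_cast hdgD)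
      refine lt_of_le_of_lt (Polynomial.degree_sub_le _ _) (max_lt ?_ hhdeg)
      exact lt_of_le_of_lt (Polynomial.degree_sub_le _ _) (max_lt hf h1)
    by_cases h0 : f₂ = 0
    · rw [h0, Polynomial.degree_zero]
      exact WithBot.bot_lt_coe _
    · rw [hf₂, Polynomial.degree_eq_natDegree (mul_ne_zero hQRmon.ne_zero h0),
        hQRmon.natDegree_mul' h0, hQRdeg] at htot
      rw [Polynomial.degree_eq_natDegree h0]
      have h3 : dg Qs + f₂.natDegree < D := by exact_mod_cast htot
      have h4 : f₂.natDegree < D - dg Qs := by omega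
      exact_mod_cast h4
  · rw [← hf₂]; ring
  · intro z hz
    have key : ∀ z ∈ K, ‖ev W z‖ * ‖hC.eval z‖
        ≤ c₁ * c₂ * dg Qs * (∑ Q ∈ Qs, Real.exp (av S Q)) * T z := by
      intro z hz
      have hTz := hT0 z hz
      calc ‖ev W z‖ * ‖hC.eval z‖ ≤ ‖ev W z‖ * ∑ a ∈ R, ‖tau a‖ * (‖(L a).eval z‖ *
            ‖(g a).eval z‖) := by
            apply mul_le_mul_of_nonneg_left _ (norm_nonneg _)
            rw [hhC, Polynomial.eval_finsetSum]
            refine (norm_sum_le _ _).trans (le_of_eq ?_)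
            apply Finset.sum_congr rfl
            intro a _
            rw [Polynomial.eval_mul, Polynomial.eval_mul, Polynomial.eval_C, norm_mul, norm_mul]
        _ = ∑ a ∈ R, ‖tau a‖ * ‖(L a).eval z‖ * (‖ev W z‖ * ‖(g a).eval z‖) := by
            rw [Finset.mul_sum]
            apply Finset.sum_congr rfl
            intro a _
            ring
        _ ≤ ∑ a ∈ R, (c₁ * Real.exp (wt Qs S a)) * c₂ * (Real.exp (S a) * T z) := by
            apply Finset.sum_le_sum
            intro a ha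
            apply mul_le_mul _ ((hg a ha).2.2 z hz) (by positivity) (by positivity)
            exact mul_le_mul (htau a ha) (hLb a ha z hz) (norm_nonneg _) (by positivity)
        _ = ∑ Q ∈ Qs, ∑ a ∈ rts Q, (c₁ * Real.exp (wt Qs S a)) * c₂ *
              (Real.exp (S a) * T z) := by
            rw [hR, rs, Finset.sum_biUnion]
            intro P hP Q hQ hPQ
            exact hdis P hP Q hQ hPQ
        _ = ∑ Q ∈ Qs, c₁ * c₂ * Q.natDegree * Real.exp (av S Q) * T z := by
            apply Finset.sum_congr rfl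
            intro Q hQ
            rw [Finset.sum_congr rfl (g := fun _ => c₁ * c₂ * Real.exp (av S Q) * T z)]
            · rw [Finset.sum_const, (hBas Q hQ).2.1, nsmul_eq_mul]; ring
            · intro a ha
              rw [wt_eq Qs S hdis hQ ha]
              have : Real.exp (av S Q - S a) * Real.exp (S a) = Real.exp (av S Q) := by
                rw [← Real.exp_add]; congr 1; ring
              rw [← this]; ring
        _ ≤ ∑ Q ∈ Qs, c₁ * c₂ * dg Qs * Real.exp (av S Q) * T z := by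
            apply Finset.sum_le_sum
            intro Q hQ
            have h1 : (Q.natDegree : ℝ) ≤ dg Qs := by
              exact_mod_cast Finset.single_le_sum (f := fun P : ℤ[X] => P.natDegree)
                (fun _ _ => Nat.zero_le _) hQ
            have h2 := Real.exp_pos (av S Q)
            gcongr
        _ = c₁ * c₂ * dg Qs * (∑ Q ∈ Qs, Real.exp (av S Q)) * T z := by
            rw [Finset.mul_sum, Finset.sum_mul]
    have k1 := key z hz
    have k2 := key (conj z) (hKc z hz)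
    rw [hT z, ev_conj, RCLike.norm_conj] at k2
    have e1 : ‖rv h z‖ ≤ 1 / 2 * (‖hC.eval z‖ + ‖hC.eval (conj z)‖) := by
      rw [hh, reP_eval D hC hCdeg, norm_mul]
      have : ‖(1 / 2 : ℂ)‖ = 1 / 2 := by norm_num
      rw [this]
      apply mul_le_mul_of_nonneg_left _ (by norm_num)
      refine (norm_add_le _ _).trans (le_of_eq ?_)
      rw [RCLike.norm_conj]
    have e2 : ‖ev W z‖ * ‖rv h z‖ ≤ ‖ev W z‖ * (1 / 2 * (‖hC.eval z‖ + ‖hC.eval (conj z)‖)) :=
      mul_le_mul_of_nonneg_left e1 (norm_nonneg _)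
    have e3 : c₁ * c₂ * (dg Qs : ℝ) * (∑ Q ∈ Qs, Real.exp (av S Q)) * T z
        = c₁ * c₂ * (dg Qs : ℝ) * (∑ Q ∈ Qs, Real.exp ((∑ a ∈ rts Q, S a) / Q.natDegree)) * T z :=
      rfl
    rw [← e3]
    nlinarith

end Pool.Agent.Work.MP_ce2d68_st.helper23

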