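import Mathlib
import Pool.Agent.Work.MP_ce2d68_st.Interface

/-!
# Block ETP: the existence theorem for products of pieces
-/

set_option autoImplicit false

open Polynomial Filter Topology
open scoped ComplexConjugate

namespace Pool.Agent.Work.MP_ce2d68_st.helper23.ETP

lemma ach_mono {θ x y : ℝ} (h : Ach θ x) (hxy : x ≤ y) : Ach θ y := by
  intro ε hε D
  obtain ⟨F, h1, h2, h3⟩ := h ε hε D
  exact ⟨F, h1, h2, by linarith⟩

lemma exists_split (J : Finset ℕ) (f : ℕ → ℕ) :
    ∀ t : ℕ, t ≤ ∑ j ∈ J, f j → ∃ l : ℕ → ℕ, (∀ j ∈ J, l j ≤ f j) ∧ ∑ j ∈ J, l j = t := by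
  classical
  induction J using Finset.induction_on with
  | empty =>
    intro t ht
    refine ⟨fun _ => 0, by simp, ?_⟩
    simp at ht ⊢
    exact ht.symm
  | insert a J ha ih =>
    intro t ht
    rw [Finset.sum_insert ha] at ht
    obtain ⟨l, hl1, hl2⟩ := ih (t - min (f a) t) (by omega)
    refine ⟨fun j => if j = a then min (f a) t else l j, ?_, ?_⟩
    · intro j hj
      by_cases h : j = a
      · subst h; simp
      · simp only [h, if_false]
        exact hl1 j ((Finset.mem_insert.1 hj).resolve_left h)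
    · rw [Finset.sum_insert ha]
      have h1 : ∑ j ∈ J, (if j = a then min (f a) t else l j) = ∑ j ∈ J, l j := by
        apply Finset.sum_congr rfl
        intro j hj
        rw [if_neg]
        rintro rfl
        exact ha hj
      rw [h1, hl2]
      simp

section

variable {σ : Type} (S : Finset σ) (J : Finset ℕ) (p b c : σ → ℂ) (q R : ℕ → ℝ)

lemma eval_map_conj (p : ℂ[X]) (z : ℂ) :
    (p.map (starRingEnd ℂ)).eval z = conj (p.eval (conj z)) := by
  have h := Polynomial.eval₂_at_apply (p := p) (starRingEnd ℂ) (conj z)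
  rw [← Polynomial.eval_map] at h
  simpa using h

/-- products of linear factors -/
noncomputable def GG (nn : σ → ℕ) (l : ℕ → ℕ) (e : ℕ) : ℂ[X] :=
  (∏ i ∈ S, (X - C (p i)) ^ nn i) * (∏ j ∈ J, (X - C (q j : ℂ)) ^ l j) * (X - C 1) ^ e

lemma GG_monic (nn : σ → ℕ) (l : ℕ → ℕ) (e : ℕ) : (GG S J p q nn l e).Monic := by
  refine ((monic_prod_of_monic _ _ fun i _ => ?_).mul (monic_prod_of_monic _ _ fun j _ => ?_)).mul ?_
  · exact (monic_X_sub_C _).pow _
  · exact (monic_X_sub_C _).pow _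
  · exact (monic_X_sub_C _).pow _

lemma GG_natDegree (nn : σ → ℕ) (l : ℕ → ℕ) (e : ℕ) :
    (GG S J p q nn l e).natDegree = ∑ i ∈ S, nn i + ∑ j ∈ J, l j + e := by
  have m1 : (∏ i ∈ S, (X - C (p i)) ^ nn i).Monic :=
    monic_prod_of_monic _ _ fun i _ => (monic_X_sub_C _).pow _
  have m2 : (∏ j ∈ J, (X - C (q j : ℂ)) ^ l j).Monic :=
    monic_prod_of_monic _ _ fun i _ => (monic_X_sub_C _).pow _
  have m3 : ((X - C 1 : ℂ[X]) ^ e).Monic := (monic_X_sub_C _).pow _
  rw [GG, (m1.mul m2).natDegree_mul m3, m1.natDegree_mul m2,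
    Polynomial.natDegree_prod_of_monic _ _ (fun i _ => (monic_X_sub_C _).pow _),
    Polynomial.natDegree_prod_of_monic _ _ (fun i _ => (monic_X_sub_C _).pow _)]
  simp only [(monic_X_sub_C _).natDegree_pow, natDegree_X_sub_C, mul_one]

lemma GG_norm (nn : σ → ℕ) (l : ℕ → ℕ) (e : ℕ) (z : ℂ) :
    ‖(GG S J p q nn l e).eval z‖
      = (∏ i ∈ S, ‖z - p i‖ ^ nn i) * (∏ j ∈ J, ‖z - q j‖ ^ l j) * ‖z - 1‖ ^ e := by
  simp [GG, Polynomial.eval_prod]

lemma GG_real (τ : σ → σ) (hτ : ∀ i ∈ S, τ i ∈ S ∧ τ (τ i) = i ∧ p (τ i) = conj (p i))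
    (nn : σ → ℕ) (hnn : ∀ i ∈ S, nn (τ i) = nn i) (l : ℕ → ℕ) (e : ℕ) :
    RealP (GG S J p q nn l e) := by
  rw [RealP, GG, Polynomial.map_mul, Polynomial.map_mul, Polynomial.map_prod, Polynomial.map_prod]
  congr 1
  · congr 1
    · refine Finset.prod_nbij' τ τ (fun i hi => (hτ i hi).1) (fun i hi => (hτ i hi).1)
        (fun i hi => (hτ i hi).2.1) (fun i hi => (hτ i hi).2.1) ?_
      intro i hi
      rw [Polynomial.map_pow, Polynomial.map_sub, Polynomial.map_X, Polynomial.map_C,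
        (hτ i hi).2.2, hnn i hi]
    · apply Finset.prod_congr rfl
      intro j _
      rw [Polynomial.map_pow, Polynomial.map_sub, Polynomial.map_X, Polynomial.map_C]
      simp
  · rw [Polynomial.map_pow, Polynomial.map_sub, Polynomial.map_X, Polynomial.map_C]
    simp

/-- the product of the pieces -/
noncomputable def TP (n : σ → ℕ) (z : ℂ) : ℝ := ∏ i ∈ S, pc (p i) (b i) (c i) z ^ n i

/-- the product of the discs -/
noncomputable def TO (m : ℕ → ℕ) (z : ℂ) : ℝ := ∏ j ∈ J, (max ‖z - q j‖ (R j)) ^ m j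

lemma pc_cont (p b c : ℂ) : Continuous (pc p b c) := by
  unfold pc
  fun_prop

lemma TP_cont (n : σ → ℕ) : Continuous (TP S p b c n) := by
  unfold TP
  exact continuous_finsetProd _ fun i _ => (pc_cont _ _ _).pow _

lemma TO_cont (m : ℕ → ℕ) : Continuous (TO J q R m) := by
  unfold TO
  exact continuous_finsetProd _ fun i _ => by fun_prop

lemma pc_conj (p b c z : ℂ) : pc p b c (conj z) = pc (conj p) (conj b) (conj c) z := by
  unfold pc
  have h1 : ‖conj z - p‖ = ‖z - conj p‖ := by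
    rw [← RCLike.norm_conj (conj z - p)]
    simp
  have h2 : ‖b * conj z + c‖ = ‖conj b * z + conj c‖ := by
    rw [← RCLike.norm_conj (b * conj z + c)]
    simp
  rw [h1, h2]

lemma TP_sym (n : σ → ℕ) (τ : σ → σ)
    (hτ : ∀ i ∈ S, τ i ∈ S ∧ τ (τ i) = i ∧ p (τ i) = conj (p i) ∧ b (τ i) = conj (b i) ∧
      c (τ i) = conj (c i) ∧ n (τ i) = n i) : Sym (TP S p b c n) := by
  intro z
  refine Finset.prod_nbij' τ τ (fun i hi => (hτ i hi).1) (fun i hi => (hτ i hi).1)
        (fun i hi => (hτ i hi).2.1) (fun i hi => (hτ i hi).2.1) ?_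
  intro i hi
  obtain ⟨-, -, h1, h2, h3, h4⟩ := hτ i hi
  rw [h1, h2, h3, h4, pc_conj]

lemma norm_conj_sub_real (z : ℂ) (x : ℝ) : ‖conj z - x‖ = ‖z - x‖ := by
  rw [← RCLike.norm_conj (conj z - (x : ℂ))]
  simp

lemma TO_sym (m : ℕ → ℕ) : Sym (TO J q R m) := by
  intro z
  unfold TO
  apply Finset.prod_congr rfl
  intro j _
  rw [norm_conj_sub_real]

lemma TP_blk (n : σ → ℕ) (hpos : ∀ i ∈ S, ∀ z, 0 < pc (p i) (b i) (c i) z) :
    Blk (∑ i ∈ S, n i) (TP S p b c n) := by
  classical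
  refine ⟨TP_cont S p b c n, fun z => Finset.prod_pos fun i hi => pow_pos (hpos i hi z) _, ?_⟩
  intro ζ
  set fac : σ → ℂ[X] := fun i =>
    if ‖b i * ζ + c i‖ ≤ ‖ζ - p i‖ then X - C (p i) else C (b i) * X + C (c i) with hfac
  refine ⟨∏ i ∈ S, fac i ^ n i, ?_, ?_, ?_⟩
  · refine (Polynomial.natDegree_prod_le _ _).trans (Finset.sum_le_sum fun i _ => ?_)
    refine (Polynomial.natDegree_pow_le).trans ?_
    have h1 : (fac i).natDegree ≤ 1 := by
      rw [hfac]
      dsimp only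
      split_ifs
      · rw [natDegree_X_sub_C]
      · exact Polynomial.natDegree_linear_le
    calc n i * (fac i).natDegree ≤ n i * 1 := Nat.mul_le_mul_left _ h1
      _ = n i := mul_one _
  · intro z
    rw [Polynomial.eval_prod, norm_prod, TP]
    refine Finset.prod_le_prod (fun i _ => norm_nonneg _) fun i _ => ?_
    rw [Polynomial.eval_pow, norm_pow]
    refine pow_le_pow_left₀ (norm_nonneg _) ?_ _
    rw [hfac]
    dsimp only
    split_ifs
    · simp only [eval_sub, eval_X, eval_C]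
      exact le_max_left _ _
    · simp only [eval_add, eval_mul, eval_X, eval_C]
      exact le_max_right _ _
  · rw [Polynomial.eval_prod, norm_prod, TP]
    refine Finset.prod_congr rfl fun i _ => ?_
    rw [Polynomial.eval_pow, norm_pow]
    congr 1
    rw [hfac]
    dsimp only
    split_ifs with h
    · simp only [eval_sub, eval_X, eval_C]
      exact (max_eq_left h).symm
    · simp only [eval_add, eval_mul, eval_X, eval_C]
      exact (max_eq_right (le_of_lt (not_le.1 h))).symm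

end

lemma ci {f : ℂ → ℝ} (hf : Continuous f) : CircleIntegrable f 0 1 :=
  hf.continuousOn.circleIntegrable (by norm_num)

lemma ca_mul (a : ℝ) (f : ℂ → ℝ) :
    Real.circleAverage (fun z => a * f z) 0 1 = a * Real.circleAverage f 0 1 := by
  exact Real.circleAverage_fun_smul (c := 0) (R := 1) (a := a) (f := f)

/-- average of the logarithm of the majorant -/
lemma ca_log {σ : Type} (S : Finset σ) (J : Finset ℕ) (p b c : σ → ℂ) (q R : ℕ → ℝ) (n : σ → ℕ)
    (m : ℕ → ℕ) (e : ℕ) (r : ℝ) (hr : 0 < r) (hpos : ∀ i ∈ S, ∀ z, 0 < pc (p i) (b i) (c i) z)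
    (hR : ∀ j ∈ J, 10 ≤ R j) :
    ca (fun z => Real.log (TP S p b c n z * TO J q R m z * (max ‖z - 1‖ r) ^ e))
      = ∑ i ∈ S, n i * ca (fun z => Real.log (pc (p i) (b i) (c i) z))
        + ∑ j ∈ J, m j * ca (fun z => Real.log (max ‖z - q j‖ (R j)))
        + e * ca (fun z => Real.log (max ‖z - 1‖ r)) := by
  have hRpos : ∀ j ∈ J, ∀ z : ℂ, 0 < max ‖z - q j‖ (R j) := fun j hj z =>
    lt_max_of_lt_right (by linarith [hR j hj])
  have hrpos : ∀ z : ℂ, 0 < max ‖z - 1‖ r := fun z => lt_max_of_lt_right hr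
  have e1 : (fun z : ℂ => Real.log (TP S p b c n z * TO J q R m z * (max ‖z - 1‖ r) ^ e))
      = fun z => (∑ i ∈ S, (n i : ℝ) • Real.log (pc (p i) (b i) (c i) z)
        + ∑ j ∈ J, (m j : ℝ) • Real.log (max ‖z - q j‖ (R j)))
        + (e : ℝ) • Real.log (max ‖z - 1‖ r) := by
    funext z
    have h1 : 0 < TP S p b c n z := Finset.prod_pos fun i hi => pow_pos (hpos i hi z) _
    have h2 : 0 < TO J q R m z := Finset.prod_pos fun i hi => pow_pos (hRpos i hi z) _
    rw [Real.log_mul (mul_pos h1 h2).ne' (pow_pos (hrpos z) _).ne', Real.log_mul h1.ne' h2.ne',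
      Real.log_pow, TP, TO, Real.log_prod (fun i hi => (pow_pos (hpos i hi z) _).ne'),
      Real.log_prod (fun i hi => (pow_pos (hRpos i hi z) _).ne')]
    simp only [Real.log_pow, smul_eq_mul]
  have c1 : ∀ i ∈ S, Continuous fun z => Real.log (pc (p i) (b i) (c i) z) := fun i hi =>
    (pc_cont _ _ _).log fun z => (hpos i hi z).ne'
  have c2 : ∀ j ∈ J, Continuous fun z : ℂ => Real.log (max ‖z - q j‖ (R j)) := fun j hj =>
    Continuous.log (by fun_prop) fun z => (hRpos j hj z).ne'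
  have c3 : Continuous fun z : ℂ => Real.log (max ‖z - 1‖ r) :=
    Continuous.log (by fun_prop) fun z => (hrpos z).ne'
  have d1 : ∀ i ∈ S, CircleIntegrable
      (fun z => (n i : ℝ) • Real.log (pc (p i) (b i) (c i) z)) 0 1 := fun i hi =>
    ci (by have := c1 i hi; fun_prop)
  have d2 : ∀ j ∈ J, CircleIntegrable
      (fun z : ℂ => (m j : ℝ) • Real.log (max ‖z - q j‖ (R j))) 0 1 := fun j hj =>
    ci (by have := c2 j hj; fun_prop)
  have d3 : CircleIntegrable (fun z : ℂ => (e : ℝ) • Real.log (max ‖z - 1‖ r)) 0 1 :=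
    ci (by fun_prop)
  have s1 : CircleIntegrable
      (fun z => ∑ i ∈ S, (n i : ℝ) • Real.log (pc (p i) (b i) (c i) z)) 0 1 :=
    ci (continuous_finsetSum _ fun i hi => by have := c1 i hi; fun_prop)
  have s2 : CircleIntegrable
      (fun z : ℂ => ∑ j ∈ J, (m j : ℝ) • Real.log (max ‖z - q j‖ (R j))) 0 1 :=
    ci (continuous_finsetSum _ fun j hj => by have := c2 j hj; fun_prop)
  have s12 : CircleIntegrable
      (fun z : ℂ => ∑ i ∈ S, (n i : ℝ) • Real.log (pc (p i) (b i) (c i) z)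
        + ∑ j ∈ J, (m j : ℝ) • Real.log (max ‖z - q j‖ (R j))) 0 1 := s1.add s2
  rw [ca, e1, Real.circleAverage_fun_add s12 d3, Real.circleAverage_fun_add s1 s2,
    Real.circleAverage_fun_sum d1, Real.circleAverage_fun_sum d2]
  simp only [smul_eq_mul, ca, ca_mul]

end Pool.Agent.Work.MP_ce2d68_st.helper23.ETP

namespace Pool.Agent.Work.MP_ce2d68_st.helper23

open ETP

theorem stmt_ETP (hETG : Stmt_ETG) (hACHV : Stmt_ACHV) : Stmt_ETP := by
  classical
  intro θ Ps σ _ S p b c n τ J q R m k e r rK lam A A1 om κ κ' κe hFam hne hτ _hb hpos hKS hR hKJ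
    hr hr1 hKe hk hD1 hD2 hlam hom hlam0 hA0 hA hAl hA1 hκ hκ' hκe
  have hτ' : ∀ i ∈ S, τ i ∈ S ∧ τ (τ i) = i ∧ p (τ i) = conj (p i) := fun i hi =>
    ⟨(hτ i hi).1, (hτ i hi).2.1, (hτ i hi).2.2.1⟩
  set D : ℕ := ∑ i ∈ S, n i with hD
  set M : ℕ := ∑ j ∈ J, m j with hM
  -- the compact set
  set K : Set ℂ := (⋃ i ∈ S, {z | ‖z - p i‖ ≤ ‖b i * z + c i‖}) ∪
    (⋃ j ∈ J, {z : ℂ | ‖z - q j‖ ≤ R j}) ∪ {z | e ≠ 0 ∧ ‖z - 1‖ ≤ r} with hKdef
  have hKmem : ∀ z, z ∈ K ↔ (∃ i ∈ S, ‖z - p i‖ ≤ ‖b i * z + c i‖) ∨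
      (∃ j ∈ J, ‖z - q j‖ ≤ R j) ∨ (e ≠ 0 ∧ ‖z - 1‖ ≤ r) := by
    intro z
    simp only [hKdef, Set.mem_union, Set.mem_iUnion, Set.mem_ofPred_eq, exists_prop, or_assoc]
  have hKθ : ∀ z ∈ K, |z.arg| ≤ θ ∧ ‖z‖ ≤ rK := by
    intro z hz
    rcases (hKmem z).1 hz with ⟨i, hi, h⟩ | ⟨j, hj, h⟩ | ⟨he, h⟩
    · exact hKS i hi z h
    · exact hKJ j hj z h
    · exact hKe he z h
  have hKclosed : IsClosed K := by
    refine (IsClosed.union ?_ ?_).union ?_
    · refine isClosed_biUnion_finset fun i _ => ?_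
      exact isClosed_le (by fun_prop) (by fun_prop)
    · refine isClosed_biUnion_finset fun j _ => ?_
      exact isClosed_le (by fun_prop) (by fun_prop)
    · by_cases he : e = 0
      · simp [he]
      · simp only [ne_eq, he, not_false_eq_true, true_and]
        exact isClosed_le (by fun_prop) (by fun_prop)
  have hK : IsCompact K := by
    refine Metric.isCompact_of_isClosed_isBounded hKclosed ?_
    refine Metric.isBounded_closedBall.subset (s := K) (t := Metric.closedBall 0 rK) ?_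
    intro z hz
    simpa using (hKθ z hz).2
  have hKc : ∀ z ∈ K, conj z ∈ K := by
    intro z hz
    rw [hKmem]
    rcases (hKmem z).1 hz with ⟨i, hi, h⟩ | ⟨j, hj, h⟩ | ⟨he, h⟩
    · left
      obtain ⟨h1, -, h3, h4, h5, -⟩ := hτ i hi
      refine ⟨τ i, h1, ?_⟩
      rw [h3, h4, h5]
      have e1 : ‖conj z - conj (p i)‖ = ‖z - p i‖ := by
        rw [← map_sub, RCLike.norm_conj]
      have e2 : ‖conj (b i) * conj z + conj (c i)‖ = ‖b i * z + c i‖ := by
        rw [← map_mul, ← map_add, RCLike.norm_conj]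
      rw [e1, e2]
      exact h
    · right; left
      exact ⟨j, hj, by rw [norm_conj_sub_real]; exact h⟩
    · right; right
      refine ⟨he, ?_⟩
      have := norm_conj_sub_real z 1
      simp only [Complex.ofReal_one] at this
      rw [this]; exact h
  have hRpos : ∀ j ∈ J, ∀ z : ℂ, 0 < max ‖z - q j‖ (R j) := fun j hj z =>
    lt_max_of_lt_right (by linarith [hR j hj])
  have hrpos : ∀ z : ℂ, 0 < max ‖z - 1‖ r := fun z => lt_max_of_lt_right hr
  have hTPpos : ∀ z, 0 < TP S p b c n z := fun z =>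
    Finset.prod_pos fun i hi => pow_pos (hpos i hi z) _
  have hTOpos : ∀ z, 0 < TO J q R m z := fun z =>
    Finset.prod_pos fun i hi => pow_pos (hRpos i hi z) _
  have hdg : 0 < dg Ps := by
    obtain ⟨Q, hQ⟩ := hne
    have h1 : Q.natDegree ≠ 0 := by
      intro h0
      have h2 := (Polynomial.Monic.natDegree_eq_zero (hFam Q hQ).1).1 h0
      exact (hFam Q hQ).2.not_isUnit (h2 ▸ isUnit_one)
    exact lt_of_lt_of_le (Nat.pos_of_ne_zero h1)
      (Finset.single_le_sum (f := fun P : ℤ[X] => P.natDegree) (fun _ _ => Nat.zero_le _) hQ)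
  have hn1 : 1 ≤ D + M + e := by
    have : 1 ≤ k * dg Ps := Nat.mul_pos hk hdg
    omega
  have hM' : ∀ N : ℕ, ∀ i ∈ Finset.Icc 1 (N * (D + M - k * dg Ps)),
      ∃ B : ℂ[X], B.Monic ∧ RealP B ∧ B.natDegree = N * (D + M + e) - i ∧
        ∀ z ∈ K, ‖B.eval z‖ ≤ (1 / 10 : ℝ) ^ i *
          (TP S p b c n z * TO J q R m z * (max ‖z - 1‖ r) ^ e) ^ N := by
    intro N i hi
    rw [Finset.mem_Icc] at hi
    have hile : i ≤ N * M := by
      refine hi.2.trans (Nat.mul_le_mul_left _ ?_)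
      omega
    obtain ⟨l, hl1, hl2⟩ := exists_split J (fun j => N * m j) (N * M - i) (by
      rw [← Finset.mul_sum, ← hM]
      omega)
    refine ⟨GG S J p q (fun i => N * n i) l (N * e), GG_monic _ _ _ _ _ _ _,
      GG_real S J p q τ hτ' _ (fun i hi => by rw [(hτ i hi).2.2.2.2.2]) _ _, ?_, ?_⟩
    · rw [GG_natDegree, hl2, ← Finset.mul_sum, ← hD]
      have e1 : N * (D + M + e) = N * D + N * M + N * e := by ring
      rw [e1]
      omega
    · intro z _
      rw [GG_norm]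
      have a1 : ∏ i ∈ S, ‖z - p i‖ ^ (N * n i) ≤ (TP S p b c n z) ^ N := by
        rw [TP, ← Finset.prod_pow]
        refine Finset.prod_le_prod (fun i _ => by positivity) fun i _ => ?_
        rw [← pow_mul, mul_comm (n i) N]
        exact pow_le_pow_left₀ (norm_nonneg _) (le_max_left _ _) _
      have a2 : ∏ j ∈ J, ‖z - q j‖ ^ l j ≤ (1 / 10 : ℝ) ^ i * (TO J q R m z) ^ N := by
        have e2 : (1 / 10 : ℝ) ^ i = ∏ j ∈ J, (1 / 10 : ℝ) ^ (N * m j - l j) := by
          rw [Finset.prod_pow_eq_pow_sum]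
          congr 1
          rw [Finset.sum_tsub_distrib J hl1, hl2, ← Finset.mul_sum, ← hM]
          omega
        rw [e2, TO, ← Finset.prod_pow, ← Finset.prod_mul_distrib]
        refine Finset.prod_le_prod (fun i _ => by positivity) fun j hj => ?_
        have h10 : 10 ≤ max ‖z - q j‖ (R j) := (hR j hj).trans (le_max_right _ _)
        have e3 : (max ‖z - (q j : ℂ)‖ (R j) ^ m j) ^ N
            = (max ‖z - (q j : ℂ)‖ (R j)) ^ (N * m j - l j) * (max ‖z - (q j : ℂ)‖ (R j)) ^ l j := by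
          rw [← pow_mul, ← pow_add]
          congr 1
          have := hl1 j hj
          have e4 : m j * N = N * m j := mul_comm _ _
          omega
        rw [e3, ← mul_assoc, ← mul_pow]
        have h1 : (1 : ℝ) ≤ (1 / 10 * max ‖z - (q j : ℂ)‖ (R j)) ^ (N * m j - l j) :=
          one_le_pow₀ (by linarith)
        have h2 : ‖z - (q j : ℂ)‖ ^ l j ≤ (max ‖z - (q j : ℂ)‖ (R j)) ^ l j :=
          pow_le_pow_left₀ (norm_nonneg _) (le_max_left _ _) _
        have h3 : 0 ≤ (max ‖z - (q j : ℂ)‖ (R j)) ^ l j := le_trans (by positivity) h2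
        nlinarith
      have a3 : ‖z - 1‖ ^ (N * e) ≤ ((max ‖z - 1‖ r) ^ e) ^ N := by
        rw [← pow_mul, mul_comm e N]
        exact pow_le_pow_left₀ (norm_nonneg _) (le_max_left _ _) _
      have p1 : 0 ≤ (TP S p b c n z) ^ N := pow_nonneg (hTPpos z).le _
      have p2 : 0 ≤ (TO J q R m z) ^ N := pow_nonneg (hTOpos z).le _
      calc _ ≤ (TP S p b c n z) ^ N * ((1 / 10 : ℝ) ^ i * (TO J q R m z) ^ N) *
            ((max ‖z - 1‖ r) ^ e) ^ N := by
            refine mul_le_mul (mul_le_mul a1 a2 (by positivity) p1) a3 (by positivity) ?_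
            positivity
        _ = _ := by rw [mul_pow, mul_pow]; ring
  have main := hETG K Ps k e D M (TP S p b c n) (TO J q R m) (GG S J p q n m e) r lam A A1 om
    hK hKc hFam hne hk hD1 hD2 hr hr1 (TP_blk S p b c n hpos) (TP_sym S p b c n τ hτ)
    (TO_cont J q R m) hTOpos (TO_sym J q R m) hlam0 hA0
    (fun z hz => hlam z (hKθ z hz).2) (fun z hz => hom z (hKθ z hz).2) hA hAl hA1
    (GG_monic _ _ _ _ _ _ _) (GG_natDegree _ _ _ _ _ _ _)
    (GG_real S J p q τ hτ' _ (fun i hi => (hτ i hi).2.2.2.2.2) _ _) ?_ ?_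
    (fun N _ => hM' N)
  · have hT : Continuous fun z : ℂ => TP S p b c n z * TO J q R m z * (max ‖z - 1‖ r) ^ e :=
      ((TP_cont S p b c n).mul (TO_cont J q R m)).mul (by fun_prop)
    have hach := hACHV θ (D + M + e)
      (fun z => TP S p b c n z * TO J q R m z * (max ‖z - 1‖ r) ^ e) hn1 hT
      (fun z => mul_pos (mul_pos (hTPpos z) (hTOpos z)) (pow_pos (hrpos z) _)) (by
        intro N₀
        obtain ⟨N, hN, F, h1, h2, h3, h4, h5, h6⟩ := main N₀
        exact ⟨N, hN, F, h1, h2, h3, h4, fun z hz => (hKθ z (h5 z hz)).1, h6⟩)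
    refine ach_mono hach ?_
    rw [ca_log S J p b c q R n m e r hr hpos hR]
    refine div_le_div_of_nonneg_right ?_ (Nat.cast_nonneg _)
    refine add_le_add (add_le_add ?_ ?_) ?_
    · exact Finset.sum_le_sum fun i hi => mul_le_mul_of_nonneg_left (hκ i hi) (Nat.cast_nonneg _)
    · exact Finset.sum_le_sum fun i hi => mul_le_mul_of_nonneg_left (hκ' i hi) (Nat.cast_nonneg _)
    · by_cases he : e = 0
      · simp [he]
      · exact mul_le_mul_of_nonneg_left (hκe he) (Nat.cast_nonneg _)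
  · intro z _
    rw [GG_norm]
    have a1 : ∏ i ∈ S, ‖z - p i‖ ^ n i ≤ TP S p b c n z :=
      Finset.prod_le_prod (fun i _ => by positivity) fun i _ =>
        pow_le_pow_left₀ (norm_nonneg _) (le_max_left _ _) _
    have a2 : ∏ j ∈ J, ‖z - q j‖ ^ m j ≤ TO J q R m z :=
      Finset.prod_le_prod (fun i _ => by positivity) fun i _ =>
        pow_le_pow_left₀ (norm_nonneg _) (le_max_left _ _) _
    have a3 : ‖z - 1‖ ^ e ≤ (max ‖z - 1‖ r) ^ e :=
      pow_le_pow_left₀ (norm_nonneg _) (le_max_left _ _) _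
    exact mul_le_mul (mul_le_mul a1 a2 (by positivity) (hTPpos z).le) a3 (by positivity)
      (mul_pos (hTPpos z) (hTOpos z)).le
  · intro z hz
    rw [hKmem] at hz
    push Not at hz
    obtain ⟨z1, z2, z3⟩ := hz
    rw [GG_norm]
    congr 1
    · congr 1
      · refine Finset.prod_congr rfl fun i hi => ?_
        rw [pc, max_eq_left (z1 i hi).le]
      · refine Finset.prod_congr rfl fun j hj => ?_
        rw [max_eq_left (z2 j hj).le]
    · by_cases he : e = 0
      · simp [he]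
      · rw [max_eq_left (z3 he).le]

end Pool.Agent.Work.MP_ce2d68_st.helper23

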